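import Pool.Agent.Run7.h96.IX.Stm

/-!
# Project IX (helper96), piece UB (helper183): the upper bound from NB and UP
-/

set_option autoImplicit false

open Finset

namespace Run7.h183.IX

open Run7.h96.IX

theorem t_UB : S_NB → S_UP → S_UB := by
  intro hNB hUP n lam m c s x hc hm hs hs1 hx hG
  obtain ⟨A, B, hA, hB, hcnt⟩ := hG
  have hN1 : 1 ≤ N s x := (hNB s x hs hx).1
  have hN0 : 0 < N s x := lt_of_lt_of_le one_pos hN1
  have hm0 : (0 : ℝ) < m := by exact_mod_cast hm
  have h1 : x ^ lam * (cnt lam A B : ℝ) ≤ ∑ p ∈ A ×ˢ B, x ^ ((p.1 ∩ p.2).card) := by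
    have h2 : ∑ p ∈ (A ×ˢ B).filter (fun p => (p.1 ∩ p.2).card = lam), x ^ ((p.1 ∩ p.2).card)
        = x ^ lam * (cnt lam A B : ℝ) := by
      rw [Finset.sum_congr rfl (g := fun _ => x ^ lam)]
      · rw [Finset.sum_const, nsmul_eq_mul, mul_comm]
        rfl
      · intro p hp
        rw [(Finset.mem_filter.mp hp).2]
    rw [← h2]
    apply Finset.sum_le_sum_of_subset_of_nonneg (Finset.filter_subset _ _)
    intro p _ _
    exact (pow_pos hx _).le
  have h3 := hUP n A B s x hs hx
  rw [hA, hB] at h3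
  have h4 : x ^ lam * (c * (m : ℝ) ^ 2) ≤ N s x ^ n * ((m : ℝ) * m) ^ s := by
    refine le_trans (mul_le_mul_of_nonneg_left hcnt (pow_pos hx _).le) (le_trans h1 h3)
  have hL : 0 < x ^ lam * (c * (m : ℝ) ^ 2) := by positivity
  have h5 := Real.logb_le_logb_of_le (b := 2) (by norm_num) hL h4
  have hmm : (0 : ℝ) < (m : ℝ) * m := by positivity
  rw [Real.logb_mul (by positivity) (by positivity), Real.logb_mul (by positivity) (by positivity),
    Real.logb_mul (by positivity) (by positivity), Real.logb_rpow_eq_mul_logb_of_pos hmm,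
    Real.logb_mul (by positivity) (by positivity), Real.logb_pow, Real.logb_pow,
    Real.logb_pow] at h5
  rw [le_div_iff₀ (by linarith)]
  push_cast at h5
  nlinarith [h5]

end Run7.h183.IX
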